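import Mathlib
import Pool.Agent.Y16.AF.StmB
import Pool.Agent.Y48.AF.GI

/-!
Job AF2-L4N: Riemann sums, scaling limits, dominated convergence.
-/

set_option autoImplicit false

open Filter Topology Set MeasureTheory

namespace Pool.Agent.Y61.AF

open Pool.Agent.Y16.AF Pool.Agent.Y48.AF

/-! ### Riemann sums (midpoints) -/

theorem riem (h : ℝ → ℝ) (hc : Continuous h) :
    Tendsto (fun n : ℕ => (∑ i ∈ Finset.range n, h (((i : ℝ) + 1 / 2) / n)) / (n : ℝ)) atTop
      (𝓝 (∫ t in (0 : ℝ)..1, h t)) := by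
  rw [Metric.tendsto_atTop]
  intro ε hε
  have huc : UniformContinuousOn h (Icc 0 1) :=
    isCompact_Icc.uniformContinuousOn_of_continuous hc.continuousOn
  rw [Metric.uniformContinuousOn_iff] at huc
  obtain ⟨δ, hδ, huc⟩ := huc (ε / 2) (by positivity)
  obtain ⟨n0, hn0⟩ := exists_nat_gt (1 / δ)
  refine ⟨max n0 1, fun n hn => ?_⟩
  have hn1 : 1 ≤ n := (le_max_right _ _).trans hn
  have hn0' : n0 ≤ n := (le_max_left _ _).trans hn
  have hnpos : (0 : ℝ) < n := by exact_mod_cast hn1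
  have hnδ : 1 / (n : ℝ) < δ := by
    rw [div_lt_iff₀ hnpos]
    rw [div_lt_iff₀ hδ] at hn0
    have : (n0 : ℝ) ≤ n := by exact_mod_cast hn0'
    nlinarith
  have hsplit : ∫ t in (0 : ℝ)..1, h t =
      ∑ i ∈ Finset.range n, ∫ t in ((i : ℝ) / n)..(((i + 1 : ℕ) : ℝ) / n), h t := by
    rw [intervalIntegral.sum_integral_adjacent_intervals (a := fun i : ℕ => (i : ℝ) / n)]
    · simp [div_self hnpos.ne']
    · intro k _
      exact hc.intervalIntegrable _ _
  rw [Real.dist_eq, hsplit, Finset.sum_div, ← Finset.sum_sub_distrib]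
  calc |∑ i ∈ Finset.range n, (h (((i : ℝ) + 1 / 2) / n) / n -
        ∫ t in ((i : ℝ) / n)..(((i + 1 : ℕ) : ℝ) / n), h t)|
      ≤ ∑ i ∈ Finset.range n, |h (((i : ℝ) + 1 / 2) / n) / n -
        ∫ t in ((i : ℝ) / n)..(((i + 1 : ℕ) : ℝ) / n), h t| :=
        Finset.abs_sum_le_sum_abs _ _
    _ ≤ ∑ _i ∈ Finset.range n, (ε / 2) * (1 / n) := by
        apply Finset.sum_le_sum
        intro i hi
        have hin : i < n := Finset.mem_range.mp hi
        have hlen : (((i + 1 : ℕ) : ℝ) / n) - ((i : ℝ) / n) = 1 / n := by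
          push_cast; field_simp; ring
        have hle : (i : ℝ) / n ≤ ((i + 1 : ℕ) : ℝ) / n := by
          apply div_le_div_of_nonneg_right _ hnpos.le
          push_cast; linarith
        have e1 : h (((i : ℝ) + 1 / 2) / n) / n =
            ∫ t in ((i : ℝ) / n)..(((i + 1 : ℕ) : ℝ) / n), h (((i : ℝ) + 1 / 2) / n) := by
          rw [intervalIntegral.integral_const, hlen, smul_eq_mul]; ring
        rw [e1, ← intervalIntegral.integral_sub (intervalIntegrable_const)
          (hc.intervalIntegrable _ _)]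
        have key := intervalIntegral.norm_integral_le_of_norm_le_const (a := (i : ℝ) / n)
          (b := ((i + 1 : ℕ) : ℝ) / n) (C := ε / 2)
          (f := fun t => h (((i : ℝ) + 1 / 2) / n) - h t) ?_
        · rw [Real.norm_eq_abs, hlen, abs_of_nonneg (show (0 : ℝ) ≤ 1 / (n : ℝ) by positivity)] at key
          exact key
        · intro t ht
          rw [uIoc_of_le hle] at ht
          have hi0 : 0 ≤ (i : ℝ) / n := by positivity
          have hi1 : ((i + 1 : ℕ) : ℝ) / n ≤ 1 := by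
            rw [div_le_one hnpos]
            exact_mod_cast hin
          have hm1 : (i : ℝ) / n ≤ ((i : ℝ) + 1 / 2) / n := by
            apply div_le_div_of_nonneg_right _ hnpos.le
            linarith
          have hm2 : ((i : ℝ) + 1 / 2) / n ≤ ((i + 1 : ℕ) : ℝ) / n := by
            apply div_le_div_of_nonneg_right _ hnpos.le
            push_cast
            linarith
          have h1 := huc (((i : ℝ) + 1 / 2) / n) ⟨hi0.trans hm1, hm2.trans hi1⟩ t
            ⟨hi0.trans ht.1.le, ht.2.trans hi1⟩ (by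
            rw [Real.dist_eq, abs_lt]
            constructor <;> linarith [ht.1, ht.2])
          rw [Real.dist_eq] at h1
          rw [Real.norm_eq_abs]
          exact h1.le
    _ = ε / 2 := by
        rw [Finset.sum_const, Finset.card_range, nsmul_eq_mul]
        field_simp
    _ < ε := by linarith

/-! ### Scaling limits -/

theorem tM : Tendsto (fun L : ℕ => ((L + 2 : ℕ) : ℝ)) atTop atTop :=
  tendsto_natCast_atTop_atTop.comp (tendsto_add_atTop_nat 2)

theorem tMi (θ : ℝ) : Tendsto (fun L : ℕ => θ / ((L + 2 : ℕ) : ℝ)) atTop (𝓝 0) :=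
  tM.const_div_atTop θ

theorem Mpos (L : ℕ) : (0 : ℝ) < ((L + 2 : ℕ) : ℝ) := by positivity

theorem sin_sinc (u : ℝ) : Real.sin u = u * Real.sinc u := by
  by_cases hu : u = 0
  · simp [hu]
  · rw [Real.sinc_of_ne_zero hu]
    field_simp

theorem lim_cos (θ : ℝ) : Tendsto (fun L : ℕ => ((L + 2 : ℕ) : ℝ) ^ 2 *
    (2 - 2 * Real.cos (θ / ((L + 2 : ℕ) : ℝ)))) atTop (𝓝 (θ ^ 2)) := by
  have h1 : Tendsto (fun L : ℕ => Real.sinc ((θ / 2) / ((L + 2 : ℕ) : ℝ))) atTop (𝓝 1) := by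
    have := (Real.continuous_sinc.tendsto 0).comp (tMi (θ / 2))
    rwa [Real.sinc_zero] at this
  have h2 := ((h1.const_mul θ).pow 2)
  rw [mul_one] at h2
  refine h2.congr fun L => ?_
  have hM := Mpos L
  have e : θ / ((L + 2 : ℕ) : ℝ) = 2 * ((θ / 2) / ((L + 2 : ℕ) : ℝ)) := by field_simp
  rw [e, half_sq, sin_sinc]
  field_simp
  ring

theorem arsinh_ds (u : ℝ) : Real.arsinh u = u * dslope Real.arsinh 0 u := by
  have h := sub_smul_dslope Real.arsinh 0 u
  rw [sub_zero, smul_eq_mul, Real.arsinh_zero, sub_zero] at h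
  exact h.symm

theorem ds_lim : Tendsto (dslope Real.arsinh 0) (𝓝 0) (𝓝 1) := by
  have h1 : HasDerivAt Real.arsinh 1 0 := by
    have := Real.hasDerivAt_arsinh 0
    norm_num at this
    exact this
  have h2 : ContinuousAt (dslope Real.arsinh 0) 0 :=
    continuousAt_dslope_same.2 h1.differentiableAt
  have h3 := h2.tendsto
  rwa [dslope_same, h1.deriv] at h3

/-- the energy of a mode -/
noncomputable def et (A : ℝ) : ℝ := 2 * Real.arsinh (√A / 2)

theorem et_spec {A : ℝ} (hA : 0 < A) : 0 < et A ∧ 2 * Real.cosh (et A) - 2 = A := by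
  unfold et
  refine ⟨?_, ?_⟩
  · have : 0 < Real.arsinh (√A / 2) := Real.arsinh_pos_iff.2 (by positivity)
    linarith
  · rw [Real.cosh_two_mul, Real.cosh_sq, Real.sinh_arsinh]
    have := Real.sq_sqrt hA.le
    nlinarith

/-- the scaling limit of the sum over the first momentum -/
theorem lim_cosh {A : ℕ → ℝ} {s : ℝ} (hs : 0 < s) (_hA : ∀ L, 0 ≤ A L)
    (h : Tendsto (fun L : ℕ => ((L + 2 : ℕ) : ℝ) ^ 2 * A L) atTop (𝓝 s)) :
    Tendsto (fun L : ℕ => 1 / (Real.cosh (((L + 2 : ℕ) : ℝ) * et (A L)) - 1)) atTop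
      (𝓝 (1 / (Real.cosh (√s) - 1))) := by
  have h1 : Tendsto (fun L : ℕ => ((L + 2 : ℕ) : ℝ) * √(A L)) atTop (𝓝 (√s)) := by
    refine (h.sqrt).congr fun L => ?_
    rw [Real.sqrt_mul (by positivity), Real.sqrt_sq (Mpos L).le]
  have h2 : Tendsto (fun L : ℕ => √(A L) / 2) atTop (𝓝 0) := by
    have h3 := h1.mul (tMi (1 / 2))
    rw [mul_zero] at h3
    refine h3.congr fun L => ?_
    have := Mpos L
    field_simp
  have h3 : Tendsto (fun L : ℕ => ((L + 2 : ℕ) : ℝ) * et (A L)) atTop (𝓝 (√s)) := by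
    have h4 := h1.mul (ds_lim.comp h2)
    rw [mul_one] at h4
    refine h4.congr fun L => ?_
    unfold et
    rw [arsinh_ds]
    simp only [Function.comp]
    ring
  have h4 : Real.cosh (√s) - 1 ≠ 0 := by
    have := Real.one_lt_cosh.2 (Real.sqrt_pos.2 hs).ne'
    linarith
  exact tendsto_const_nhds.div (((Real.continuous_cosh.tendsto _).comp h3).sub_const 1) h4

/-! ### Sums over the momenta -/

theorem vma (n : ℤ) : ∀ᶠ L : ℕ in atTop, ((n : ZMod (L + 2))).valMinAbs = n := by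
  filter_upwards [eventually_gt_atTop (2 * n.natAbs)] with L hL
  rw [ZMod.valMinAbs_spec]
  refine ⟨rfl, ?_, ?_⟩
  · push_cast
    omega
  · push_cast
    omega

noncomputable def sz (M : ℕ) [NeZero M] : Finset ℤ :=
  Finset.univ.map ⟨fun x : ZMod M => x.valMinAbs, ZMod.injective_valMinAbs⟩

theorem mem_sz {M : ℕ} [NeZero M] (n : ℤ) : n ∈ sz M ↔ ((n : ZMod M)).valMinAbs = n := by
  unfold sz
  rw [Finset.mem_map]
  constructor
  · rintro ⟨x, -, rfl⟩
    show ((x.valMinAbs : ℤ) : ZMod M).valMinAbs = x.valMinAbs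
    rw [ZMod.coe_valMinAbs]
  · intro h
    exact ⟨(n : ZMod M), Finset.mem_univ _, h⟩

theorem sum_sz {M : ℕ} [NeZero M] (f : ZMod M → ℝ) : ∑ n ∈ sz M, f (n : ZMod M) = ∑ x, f x := by
  unfold sz
  rw [Finset.sum_map]
  refine Finset.sum_congr rfl fun x _ => ?_
  show f ((x.valMinAbs : ℤ) : ZMod M) = f x
  rw [ZMod.coe_valMinAbs]

/-- sums over one momentum -/
theorem sum1 {M : ℕ} [NeZero M] (f : ZMod M → ℝ) :
    ∑ x, f x = ∑' n : ℤ, if ((n : ZMod M)).valMinAbs = n then f n else 0 := by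
  classical
  rw [tsum_eq_sum (s := sz M) (fun n hn => if_neg (fun h => hn ((mem_sz n).2 h))), ← sum_sz]
  exact Finset.sum_congr rfl fun n hn => (if_pos ((mem_sz n).1 hn)).symm

/-- sums over the modes -/
theorem sum3 {M : ℕ} [NeZero M] (f : ℕ → ZMod M → ZMod M → ℝ) :
    ∑ j ∈ Finset.range M, ∑ y, ∑ z, f j y z =
      ∑' p : ℕ × ℤ × ℤ, if p.1 < M ∧ ((p.2.1 : ZMod M)).valMinAbs = p.2.1 ∧
        ((p.2.2 : ZMod M)).valMinAbs = p.2.2 then f p.1 p.2.1 p.2.2 else 0 := by
  classical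
  rw [tsum_eq_sum (s := Finset.range M ×ˢ (sz M ×ˢ sz M))]
  · rw [Finset.sum_product]
    refine Finset.sum_congr rfl fun j hj => ?_
    rw [Finset.sum_product, ← sum_sz]
    refine Finset.sum_congr rfl fun y hy => ?_
    rw [← sum_sz]
    refine Finset.sum_congr rfl fun z hz => ?_
    rw [if_pos ⟨Finset.mem_range.1 hj, (mem_sz y).1 hy, (mem_sz z).1 hz⟩]
  · rintro ⟨j, y, z⟩ hp
    refine if_neg ?_
    rintro ⟨h1, h2, h3⟩
    apply hp
    rw [Finset.mem_product, Finset.mem_product]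
    exact ⟨Finset.mem_range.2 h1, (mem_sz y).2 h2, (mem_sz z).2 h3⟩

theorem cos_an {M : ℕ} [NeZero M] (x : ZMod M) :
    Real.cos (an x) = Real.cos (2 * Real.pi * ((x.valMinAbs : ℤ) : ℝ) / M) := by
  have hL' : (0 : ℝ) < M := by exact_mod_cast (NeZero.one_le : 1 ≤ M)
  obtain ⟨n, hn⟩ : ∃ n : ℤ, n = x.valMinAbs := ⟨_, rfl⟩
  unfold an
  have h3 := ZMod.valMinAbs_def_pos x
  rw [← hn] at h3 ⊢
  split_ifs at h3 with h4
  · rw [h3]
    push_cast
    rfl
  · have h5 : (x.val : ℝ) = (n : ℝ) + M := by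
      have : (x.val : ℤ) = n + M := by omega
      exact_mod_cast this
    rw [h5]
    have e : 2 * Real.pi * ((n : ℝ) + M) / M = 2 * Real.pi * n / M + 2 * Real.pi := by
      field_simp
    rw [e, Real.cos_add_two_pi]

/-- the scaling limit of the energies -/
theorem lim_be (n : ℤ) : Tendsto (fun L : ℕ => ((L + 2 : ℕ) : ℝ) ^ 2 * be (n : ZMod (L + 2))) atTop
    (𝓝 ((2 * Real.pi * n) ^ 2)) := by
  refine (lim_cos (2 * Real.pi * n)).congr' ?_
  filter_upwards [vma n] with L hL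
  unfold be
  rw [cos_an, hL]

theorem lim_mu (j : ℕ) : Tendsto (fun L : ℕ => ((L + 2 : ℕ) : ℝ) ^ 2 * mu (L + 2) j) atTop
    (𝓝 ((Real.pi * j) ^ 2)) := lim_cos (Real.pi * j)

end Pool.Agent.Y61.AF
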