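import Mathlib
import Pool.Agent.Y61.AF.Tan

/-!
Job AF2-L4N: the sum of gauge invariance, Neumann part, limit.
-/

set_option autoImplicit false

open Filter Topology Set MeasureTheory

namespace Pool.Agent.Y61.AF

open Pool.Agent.Y16.AF Pool.Agent.Y48.AF

/-! ### The sum over the first momentum -/

theorem trig_sum (hT : S_TRIG) {M : ℕ} [NeZero M] {A : ℝ} (hA : 0 < A) :
    ∑ x : ZMod M, ph (an x) A = (M : ℝ) ^ 2 / (Real.cosh (M * et A) - 1) := by
  have hL : 1 ≤ M := NeZero.one_le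
  obtain ⟨h1, h2⟩ := et_spec hA
  rw [← hT M hL A (et A) hA h1 h2]
  exact zmod_sum (L := M) (fun m => ph (2 * Real.pi * m / M) A)

theorem Is_nz (hT : S_TRIG) {M : ℕ} [NeZero M] {j : ℕ} {y z : ZMod M} (h : ¬(y = 0 ∧ z = 0))
    (hA : 0 < mu M j + be y + be z) :
    Is j y z = (M : ℝ) ^ 2 / (Real.cosh (M * et (mu M j + be y + be z)) - 1) := by
  rw [← trig_sum hT hA]
  unfold Is
  refine Finset.sum_congr rfl fun x _ => ?_
  rw [if_neg (fun h' => h h'.2)]

theorem Is_z (hT : S_TRIG) {M : ℕ} [NeZero M] {j : ℕ} (hA : 0 < mu M j) :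
    Is j (0 : ZMod M) 0 = (M : ℝ) ^ 2 / (Real.cosh (M * et (mu M j)) - 1) - 2 / mu M j := by
  have hz : ph (an (0 : ZMod M)) (mu M j) = 2 / mu M j := by rw [an_zero, ph_zero]
  rw [← trig_sum hT hA, ← hz]
  unfold Is
  rw [be_zero, add_zero, add_zero, eq_sub_iff_add_eq]
  have e2 : ∀ x : ZMod M, (if x = 0 ∧ (0 : ZMod M) = 0 ∧ (0 : ZMod M) = 0 then 0 else
      ph (an x) (mu M j)) = ph (an x) (mu M j) - if x = 0 then ph (an x) (mu M j) else 0 := by
    intro x
    by_cases hx : x = 0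
    · rw [if_pos ⟨hx, rfl, rfl⟩, if_pos hx, sub_self]
    · rw [if_neg (fun h => hx h.1), if_neg hx, sub_zero]
  rw [Finset.sum_congr rfl fun x _ => e2 x]
  rw [Finset.sum_sub_distrib, Finset.sum_ite_eq' Finset.univ (0 : ZMod M)
    (fun x => ph (an x) (mu M j)), if_pos (Finset.mem_univ _)]
  ring

theorem be_pos {M : ℕ} [NeZero M] {x : ZMod M} (hx : x.valMinAbs ≠ 0) : 0 < be x := by
  have h3 : (0 : ℝ) < ((x.valMinAbs : ℤ) : ℝ) ^ 2 := by
    have : ((x.valMinAbs : ℤ) : ℝ) ≠ 0 := by exact_mod_cast hx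
    positivity
  have h1 := be_ge x
  by_contra hcon
  push Not at hcon
  nlinarith [sq_nonneg (M : ℝ)]

theorem Is_zz {M : ℕ} [NeZero M] :
    Is 0 (0 : ZMod M) 0 = ∑ x : ZMod M, if x = 0 then 0 else -(2 / be x) := by
  unfold Is
  refine Finset.sum_congr rfl fun x _ => ?_
  by_cases hx : x = 0
  · rw [if_pos ⟨hx, rfl, rfl⟩, if_pos hx]
  · rw [if_neg (fun h => hx h.1), if_neg hx, mu_zero, be_zero, add_zero, add_zero, ph_A0]
    · rfl
    · exact (be_pos (fun h => hx ((ZMod.valMinAbs_eq_zero x).1 h))).ne'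

/-! ### Scaling limits -/

theorem lim_zz : ∃ x : ℝ, Tendsto (fun L : ℕ => Is 0 (0 : ZMod (L + 2)) 0 /
    ((L + 2 : ℕ) : ℝ) ^ 2) atTop (𝓝 x) := by
  have e : ∀ L : ℕ, Is 0 (0 : ZMod (L + 2)) 0 / ((L + 2 : ℕ) : ℝ) ^ 2 =
      ∑' n : ℤ, if ((n : ZMod (L + 2))).valMinAbs = n then
        (if (n : ZMod (L + 2)) = 0 then 0 else
          -(2 / (((L + 2 : ℕ) : ℝ) ^ 2 * be (n : ZMod (L + 2))))) else 0 := by
    intro L
    rw [← sum1 (fun x : ZMod (L + 2) => if x = 0 then 0 else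
      -(2 / (((L + 2 : ℕ) : ℝ) ^ 2 * be x))), Is_zz, Finset.sum_div]
    refine Finset.sum_congr rfl fun x _ => ?_
    split_ifs
    · simp
    · rw [neg_div, div_div, mul_comm (be x)]
  simp only [e]
  have hlim : ∀ n : ℤ, ∃ x : ℝ, Tendsto (fun L : ℕ => if ((n : ZMod (L + 2))).valMinAbs = n then
        (if (n : ZMod (L + 2)) = 0 then 0 else
          -(2 / (((L + 2 : ℕ) : ℝ) ^ 2 * be (n : ZMod (L + 2))))) else 0) atTop (𝓝 x) := by
    intro n
    by_cases hn : n = 0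
    · refine ⟨0, tendsto_const_nhds.congr fun L => ?_⟩
      subst hn
      simp
    · have h1 : (2 * Real.pi * (n : ℝ)) ^ 2 ≠ 0 := by
        have : (n : ℝ) ≠ 0 := by exact_mod_cast hn
        have := Real.pi_pos
        positivity
      refine ⟨_, Tendsto.congr' ?_ ((tendsto_const_nhds (x := (2 : ℝ))).div (lim_be n) h1).neg⟩
      filter_upwards [vma n] with L hL
      have h2 : ¬((n : ZMod (L + 2)) = 0) := by
        intro h
        rw [h, ZMod.valMinAbs_zero] at hL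
        exact hn hL.symm
      rw [if_pos hL, if_neg h2]
      rfl
  choose g hg using hlim
  refine ⟨∑' n, g n, tendsto_tsum_of_dominated_convergence wt_summable hg
    (Eventually.of_forall fun L n => ?_)⟩
  have hw := wt_pos n
  split_ifs with h1 h2
  · simp [hw.le]
  · have hn : n ≠ 0 := by
      rintro rfl
      exact h2 (by simp)
    have h3 := be_ge (n : ZMod (L + 2))
    rw [h1] at h3
    have h4 : (0 : ℝ) < (n : ℝ) ^ 2 := by
      have : (n : ℝ) ≠ 0 := by exact_mod_cast hn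
      positivity
    have h5 := inv_sq_le hn
    have h6 : (0 : ℝ) < ((L + 2 : ℕ) : ℝ) ^ 2 * be (n : ZMod (L + 2)) := by linarith
    rw [norm_neg, Real.norm_eq_abs, abs_of_pos (by positivity)]
    calc 2 / (((L + 2 : ℕ) : ℝ) ^ 2 * be (n : ZMod (L + 2))) ≤ 2 / (16 * (n : ℝ) ^ 2) :=
          div_le_div_of_nonneg_left (by norm_num) (by positivity) h3
      _ = 1 / 8 * (1 / (n : ℝ) ^ 2) := by
          field_simp
          norm_num
      _ ≤ 1 / 8 * (2 * wt n) := by gcongr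
      _ ≤ wt n := by linarith
  · simp [hw.le]

theorem lim_Is (hT : S_TRIG) (j : ℕ) (y z : ℤ) : ∃ x : ℝ, Tendsto (fun L : ℕ =>
    Is j (y : ZMod (L + 2)) (z : ZMod (L + 2)) / ((L + 2 : ℕ) : ℝ) ^ 2) atTop (𝓝 x) := by
  by_cases h0 : y = 0 ∧ z = 0
  · obtain ⟨rfl, rfl⟩ := h0
    by_cases hj : j = 0
    · subst hj
      obtain ⟨x, hx⟩ := lim_zz
      exact ⟨x, hx.congr fun L => by rw [Int.cast_zero]⟩
    · have hj' : (0 : ℝ) < j := by exact_mod_cast Nat.pos_of_ne_zero hj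
      have hp : 0 < (Real.pi * j) ^ 2 := by
        have := Real.pi_pos
        positivity
      have h1 := lim_cosh hp (fun L => mu_nonneg (L + 2) j) (lim_mu j)
      have h2 := (tendsto_const_nhds (x := (2 : ℝ))).div (lim_mu j) hp.ne'
      refine ⟨_, Tendsto.congr' ?_ (h1.sub h2)⟩
      filter_upwards [(lim_mu j).eventually (lt_mem_nhds hp)] with L hL
      have hM := Mpos L
      have hmu : 0 < mu (L + 2) j := by
        by_contra hcon
        push Not at hcon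
        have := mul_nonpos_of_nonneg_of_nonpos (sq_nonneg ((L + 2 : ℕ) : ℝ)) hcon
        linarith
      have hc : Real.cosh (((L + 2 : ℕ) : ℝ) * et (mu (L + 2) j)) - 1 ≠ 0 := by
        have := Real.one_lt_cosh.2 (mul_pos hM (et_spec hmu).1).ne'
        linarith
      rw [Int.cast_zero, Is_z hT hmu]
      change 1 / (Real.cosh (((L + 2 : ℕ) : ℝ) * et (mu (L + 2) j)) - 1) -
        2 / (((L + 2 : ℕ) : ℝ) ^ 2 * mu (L + 2) j) = _
      field_simp
  · have hp : 0 < (Real.pi * j) ^ 2 + (2 * Real.pi * y) ^ 2 + (2 * Real.pi * z) ^ 2 := by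
      have := Real.pi_pos
      by_cases hy : y = 0
      · have hz : (z : ℝ) ≠ 0 := by
          have : z ≠ 0 := fun h => h0 ⟨hy, h⟩
          exact_mod_cast this
        positivity
      · have hy : (y : ℝ) ≠ 0 := by exact_mod_cast hy
        positivity
    have hA : Tendsto (fun L : ℕ => ((L + 2 : ℕ) : ℝ) ^ 2 *
        (mu (L + 2) j + be (y : ZMod (L + 2)) + be (z : ZMod (L + 2)))) atTop
        (𝓝 ((Real.pi * j) ^ 2 + (2 * Real.pi * y) ^ 2 + (2 * Real.pi * z) ^ 2)) :=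
      (((lim_mu j).add (lim_be y)).add (lim_be z)).congr fun L => by ring
    have h1 := lim_cosh hp (fun L => add_nonneg (add_nonneg (mu_nonneg (L + 2) j)
      (be_nonneg _)) (be_nonneg _)) hA
    refine ⟨_, Tendsto.congr' ?_ h1⟩
    filter_upwards [hA.eventually (lt_mem_nhds hp), vma y, vma z] with L hL hy hz
    have hM := Mpos L
    have hA' : 0 < mu (L + 2) j + be (y : ZMod (L + 2)) + be (z : ZMod (L + 2)) := by
      by_contra hcon
      push Not at hcon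
      have := mul_nonpos_of_nonneg_of_nonpos (sq_nonneg ((L + 2 : ℕ) : ℝ)) hcon
      linarith
    rw [Is_nz hT _ hA']
    · have hc : Real.cosh (((L + 2 : ℕ) : ℝ) *
          et (mu (L + 2) j + be (y : ZMod (L + 2)) + be (z : ZMod (L + 2)))) - 1 ≠ 0 := by
        have := Real.one_lt_cosh.2 (mul_pos hM (et_spec hA').1).ne'
        linarith
      field_simp
    · rintro ⟨h2, h3⟩
      apply h0
      rw [h2, ZMod.valMinAbs_zero] at hy
      rw [h3, ZMod.valMinAbs_zero] at hz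
      exact ⟨hy.symm, hz.symm⟩

/-! ### The sums of the Neumann Green functions -/

theorem tot {L : ℕ} [NeZero L] (v : ℕ → ℝ) :
    ∑ k ∈ Finset.univ.filter (fun k : Sp L => k ≠ 0), ∑ j ∈ Finset.range L,
      v j * ph (an (k 0)) (mu L j + be (k 1) + be (k 2)) =
      ∑ j ∈ Finset.range L, v j * ∑ y : ZMod L, ∑ z : ZMod L, Is j y z := by
  classical
  rw [Finset.sum_filter, ← (e3 L).sum_comp, Fintype.sum_prod_type]
  simp only [Fintype.sum_prod_type]
  have e2 : ∀ x y z : ZMod L, (if (e3 L (x, y, z)) ≠ 0 then ∑ j ∈ Finset.range L,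
      v j * ph (an (e3 L (x, y, z) 0)) (mu L j + be (e3 L (x, y, z) 1) + be (e3 L (x, y, z) 2)) else 0) =
      ∑ j ∈ Finset.range L, v j * (if x = 0 ∧ y = 0 ∧ z = 0 then 0 else
        ph (an x) (mu L j + be y + be z)) := by
    intro x y z
    have e3' : e3 L (x, y, z) = 0 ↔ x = 0 ∧ y = 0 ∧ z = 0 := by
      constructor
      · intro h
        exact ⟨congrFun h 0, congrFun h 1, congrFun h 2⟩
      · rintro ⟨rfl, rfl, rfl⟩
        funext i
        fin_cases i <;> rfl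
    by_cases h : x = 0 ∧ y = 0 ∧ z = 0
    · rw [if_neg (fun h' => h' (e3'.2 h))]
      simp only [if_pos h, mul_zero, Finset.sum_const_zero]
    · rw [if_pos (fun h' => h (e3'.1 h'))]
      simp only [if_neg h]
      rfl
  simp only [e2]
  simp only [Is, Finset.mul_sum]
  rw [Finset.sum_comm]
  have : ∀ y : ZMod L, ∑ x : ZMod L, ∑ z : ZMod L, ∑ j ∈ Finset.range L, v j *
      (if x = 0 ∧ y = 0 ∧ z = 0 then 0 else ph (an x) (mu L j + be y + be z)) =
      ∑ j ∈ Finset.range L, ∑ z : ZMod L, ∑ x : ZMod L, v j *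
      (if x = 0 ∧ y = 0 ∧ z = 0 then 0 else ph (an x) (mu L j + be y + be z)) := by
    intro y
    rw [Finset.sum_comm]
    simp only [Finset.sum_comm (s := (Finset.univ : Finset (ZMod L))) (t := Finset.range L)]
  simp only [this]
  rw [Finset.sum_comm]

theorem EN_eq (hS : S_SPEC) (hE : S_EN) {L : ℕ} [NeZero L] (hL : 2 ≤ L) {t : ℕ} (ht : t < L) :
    EN L t = ∑ j ∈ Finset.range L, (if j = 0 then 1 else 2) / (L : ℝ) *
      Real.cos (Real.pi * j * (t + 1 / 2) / L) ^ 2 * ∑ y : ZMod L, ∑ z : ZMod L, Is j y z := by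
  obtain ⟨c, C, -, -, hEN⟩ := hE
  have hwh : ∀ k : Sp L, wh2 k = be (k 0) + be (k 1) + be (k 2) := by
    intro k
    unfold wh2
    rw [Fin.sum_univ_three]
    rfl
  have hden : ∀ (k : Sp L) (j : ℕ), mu L j + wh2 k = mu L j + be (k 1) + be (k 2) + 2 -
      2 * Real.cos (an (k 0)) := by
    intro k j
    rw [hwh]
    have : be (k 0) = 2 - 2 * Real.cos (an (k 0)) := rfl
    rw [this]
    ring
  rw [← tot (fun j => (if j = 0 then 1 else 2) / (L : ℝ) *
      Real.cos (Real.pi * j * (t + 1 / 2) / L) ^ 2)]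
  unfold EN nz
  refine Finset.sum_congr rfl fun k hk => ?_
  have hk' : k ≠ 0 := (Finset.mem_filter.1 hk).2
  obtain ⟨h1, -, -, h2, -⟩ := hEN L hL k hk'
  rw [(hS L hL (en k) h1).2.2.1 t ht, (hS L hL (en k) h1).2.2.2 t ht, h2, Finset.mul_sum,
    Finset.mul_sum, ← Finset.sum_sub_distrib]
  refine Finset.sum_congr rfl fun j _ => ?_
  have e1 : 2 - 2 * Real.cos (Real.pi * j / L) + wh2 k = mu L j + wh2 k := rfl
  have e2 : ang k 0 = an (k 0) := rfl
  rw [e1, e2, hden k j]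
  unfold ph
  ring

/-- the weights -/
noncomputable def hj (j : ℕ) (x : ℝ) : ℝ :=
  x ^ 2 * ((if j = 0 then 1 else 2) * Real.cos (Real.pi * j * x) ^ 2)

noncomputable def bb (M j : ℕ) : ℝ :=
  (∑ t ∈ Finset.range M, hj j (((t : ℝ) + 1 / 2) / M)) / M

theorem hj_cont (j : ℕ) : Continuous (hj j) := by
  unfold hj
  fun_prop

theorem bb_lim (j : ℕ) : ∃ x : ℝ, Tendsto (fun L : ℕ => bb (L + 2) j) atTop (𝓝 x) :=
  ⟨_, (riem (hj j) (hj_cont j)).comp (tendsto_add_atTop_nat 2)⟩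

theorem bb_le {M : ℕ} (hM : 1 ≤ M) (j : ℕ) : |bb M j| ≤ 2 := by
  have hM' : (0 : ℝ) < M := by exact_mod_cast hM
  unfold bb
  rw [abs_div, abs_of_pos hM', div_le_iff₀ hM']
  refine (Finset.abs_sum_le_sum_abs _ _).trans ?_
  have h1 : ∀ t ∈ Finset.range M, |hj j (((t : ℝ) + 1 / 2) / M)| ≤ 2 := by
    intro t ht
    have ht' : (t : ℝ) + 1 ≤ M := by exact_mod_cast Finset.mem_range.1 ht
    have h2 : ((t : ℝ) + 1 / 2) / M ≤ 1 := by
      rw [div_le_one hM']
      linarith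
    have h3 : 0 ≤ ((t : ℝ) + 1 / 2) / M := by positivity
    have h4 : (((t : ℝ) + 1 / 2) / M) ^ 2 ≤ 1 := pow_le_one₀ h3 h2
    have h5 := Real.cos_sq_le_one (Real.pi * j * (((t : ℝ) + 1 / 2) / M))
    have h6 : (if j = 0 then 1 else 2 : ℝ) ≤ 2 := by split_ifs <;> norm_num
    have h7 : (0 : ℝ) ≤ (if j = 0 then 1 else 2 : ℝ) := by split_ifs <;> norm_num
    unfold hj
    rw [abs_of_nonneg (by positivity)]
    calc _ ≤ 1 * (2 * 1 : ℝ) := by gcongr
      _ = 2 := by norm_num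
  refine (Finset.sum_le_sum h1).trans (le_of_eq ?_)
  rw [Finset.sum_const, Finset.card_range, nsmul_eq_mul]
  ring

theorem main_eq (hS : S_SPEC) (hE : S_EN) {M : ℕ} [NeZero M] (hM : 2 ≤ M) :
    (∑ t ∈ Finset.range M, ((t : ℝ) + 1 / 2) ^ 2 * EN M t) / (M : ℝ) ^ 4 =
      ∑ j ∈ Finset.range M, ∑ y : ZMod M, ∑ z : ZMod M, bb M j * (Is j y z / (M : ℝ) ^ 2) := by
  have hM' : (0 : ℝ) < M := by
    have : 0 < M := by omega
    exact_mod_cast this
  have e1 : ∀ t ∈ Finset.range M, ((t : ℝ) + 1 / 2) ^ 2 * EN M t =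
      ∑ j ∈ Finset.range M, (M : ℝ) ^ 2 * (hj j (((t : ℝ) + 1 / 2) / M) / M *
        ∑ y : ZMod M, ∑ z : ZMod M, Is j y z) := by
    intro t ht
    rw [EN_eq hS hE hM (Finset.mem_range.1 ht), Finset.mul_sum]
    refine Finset.sum_congr rfl fun j _ => ?_
    unfold hj
    have e2 : Real.pi * j * (((t : ℝ) + 1 / 2) / M) = Real.pi * j * ((t : ℝ) + 1 / 2) / M := by
      ring
    rw [e2]
    field_simp
  rw [Finset.sum_congr rfl e1, Finset.sum_comm, Finset.sum_div]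
  refine Finset.sum_congr rfl fun j _ => ?_
  have e3 : ∑ y : ZMod M, ∑ z : ZMod M, bb M j * (Is j y z / (M : ℝ) ^ 2) =
      bb M j * ((∑ y : ZMod M, ∑ z : ZMod M, Is j y z) / (M : ℝ) ^ 2) := by
    simp only [Finset.mul_sum, Finset.sum_div]
  rw [e3, ← Finset.mul_sum, ← Finset.sum_mul, ← Finset.sum_div]
  change (M : ℝ) ^ 2 * (bb M j * _) / (M : ℝ) ^ 4 = _
  field_simp

/-- the sum of gauge invariance, Neumann part -/
theorem af_l4n : S_L4N := by
  intro hT hS hE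
  have hK := one_le_KK
  set f : ℕ → ℕ × ℤ × ℤ → ℝ := fun L p => if p.1 < L + 2 ∧
      ((p.2.1 : ZMod (L + 2))).valMinAbs = p.2.1 ∧ ((p.2.2 : ZMod (L + 2))).valMinAbs = p.2.2 then
      bb (L + 2) p.1 * (Is p.1 (p.2.1 : ZMod (L + 2)) (p.2.2 : ZMod (L + 2)) /
        ((L + 2 : ℕ) : ℝ) ^ 2) else 0 with hf
  have hsum : ∀ L : ℕ, (∑ t ∈ Finset.range (L + 2), ((t : ℝ) + 1 / 2) ^ 2 *
      EN (L + 2) t) / ((L + 2 : ℕ) : ℝ) ^ 4 = ∑' p, f L p := by
    intro L
    rw [main_eq hS hE (M := L + 2) (by omega)]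
    exact sum3 (M := L + 2) (fun j y z => bb (L + 2) j * (Is j y z / ((L + 2 : ℕ) : ℝ) ^ 2))
  have hlim : ∀ p : ℕ × ℤ × ℤ, ∃ x : ℝ, Tendsto (fun L => f L p) atTop (𝓝 x) := by
    rintro ⟨j, y, z⟩
    obtain ⟨x1, h1⟩ := bb_lim j
    obtain ⟨x2, h2⟩ := lim_Is hT j y z
    refine ⟨x1 * x2, Tendsto.congr' ?_ (h1.mul h2)⟩
    filter_upwards [vma y, vma z, eventually_gt_atTop j] with L hy hz hL
    show _ = if j < L + 2 ∧ ((y : ZMod (L + 2))).valMinAbs = y ∧
      ((z : ZMod (L + 2))).valMinAbs = z then _ else _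
    rw [if_pos ⟨by omega, hy, hz⟩]
  choose G hG using hlim
  have hw : Summable (fun p : ℕ × ℤ × ℤ => 2 * (1177 + KK) *
      (wt p.1 * (wt p.2.1 * wt p.2.2))) := by
    refine Summable.mul_left _ ?_
    refine Summable.mul_of_nonneg (f := fun j : ℕ => wt (j : ℤ))
      (g := fun q : ℤ × ℤ => wt q.1 * wt q.2)
      (wt_summable.comp_injective Nat.cast_injective) ?_ (fun j => (wt_pos _).le)
      (fun q => (mul_pos (wt_pos _) (wt_pos _)).le)
    exact Summable.mul_of_nonneg wt_summable wt_summable (fun j => (wt_pos _).le)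
      (fun j => (wt_pos _).le)
  refine ⟨∑' p, G p, ?_⟩
  simp only [hsum]
  refine tendsto_tsum_of_dominated_convergence hw hG (Eventually.of_forall fun L p => ?_)
  obtain ⟨j, y, z⟩ := p
  have hwp : 0 < wt (j : ℤ) * (wt y * wt z) := mul_pos (wt_pos _) (mul_pos (wt_pos _) (wt_pos _))
  show ‖if j < L + 2 ∧ ((y : ZMod (L + 2))).valMinAbs = y ∧
      ((z : ZMod (L + 2))).valMinAbs = z then bb (L + 2) j *
      (Is j (y : ZMod (L + 2)) (z : ZMod (L + 2)) / ((L + 2 : ℕ) : ℝ) ^ 2) else 0‖ ≤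
      2 * (1177 + KK) * (wt (j : ℤ) * (wt y * wt z))
  split_ifs with h
  · obtain ⟨h1, h2, h3⟩ := h
    have hM := Mpos L
    have h4 := Is_bound hT (L := L + 2) h1 (y : ZMod (L + 2)) (z : ZMod (L + 2))
    rw [h2, h3] at h4
    have h5 := bb_le (M := L + 2) (by omega) j
    rw [Real.norm_eq_abs, abs_mul, abs_div, abs_of_pos (show (0 : ℝ) < ((L + 2 : ℕ) : ℝ) ^ 2 by
      positivity)]
    have h6 : |Is j (y : ZMod (L + 2)) (z : ZMod (L + 2))| / ((L + 2 : ℕ) : ℝ) ^ 2 ≤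
        (1177 + KK) * (wt (j : ℤ) * (wt y * wt z)) := by
      rw [div_le_iff₀ (by positivity)]
      refine h4.trans (le_of_eq ?_)
      ring
    calc |bb (L + 2) j| * (|Is j (y : ZMod (L + 2)) (z : ZMod (L + 2))| / ((L + 2 : ℕ) : ℝ) ^ 2) ≤
        2 * ((1177 + KK) * (wt (j : ℤ) * (wt y * wt z))) :=
          mul_le_mul h5 h6 (by positivity) (by norm_num)
      _ = _ := by ring
  · rw [norm_zero]
    exact mul_nonneg (by linarith) hwp.le

end Pool.Agent.Y61.AF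

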